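import Pool.Agent.W348.RG.Stms

/-!
Project RG: ideals as systems of functionals (S_dat).
-/

set_option autoImplicit false

open Finset TensorProduct

namespace Pool.Agent.W959.RG

open Pool.Agent.W348.RG

/-- a subspace of codimension at most `c` is the kernel of a map to `F ^ c` -/
lemma exists_ker {F V : Type} [Field F] [AddCommGroup V] [Module F V] [Module.Finite F V]
    (N : Submodule F V) (c : ℕ) (h : Module.finrank F V ≤ Module.finrank F N + c) :
    ∃ (Φ : V →ₗ[F] (Fin c → F)) (s : (Fin c → F) →ₗ[F] V), (∀ z, z ∈ N ↔ Φ z = 0) ∧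
      ∀ z, Φ (s (Φ z)) = Φ z := by
  classical
  obtain ⟨n, hn⟩ : ∃ n, n = Module.finrank F (V ⧸ N) := ⟨_, rfl⟩
  have hnc : n ≤ c := by
    have := Submodule.finrank_quotient_add_finrank N
    omega
  obtain ⟨B⟩ : Nonempty (Module.Basis (Fin n) F (V ⧸ N)) := by
    rw [hn]; exact ⟨Module.finBasis F (V ⧸ N)⟩
  obtain ⟨ι, hι⟩ : ∃ ι : (V ⧸ N) →ₗ[F] (Fin c → F), ∀ q (i : Fin c), ι q i =
      if h : (i : ℕ) < n then B.coord ⟨i, h⟩ q else 0 := by
    refine ⟨LinearMap.pi fun i => if h : (i : ℕ) < n then B.coord ⟨i, h⟩ else 0, fun q i => ?_⟩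
    rw [LinearMap.pi_apply]
    split_ifs <;> rfl
  have hinj : LinearMap.ker ι = ⊥ := by
    rw [LinearMap.ker_eq_bot']
    intro q hq
    have h1 : B.repr q = 0 := by
      ext k
      have h2 := congrFun hq (Fin.castLE hnc k)
      rw [hι] at h2
      simpa using h2
    have := congrArg B.repr.symm h1
    simpa using this
  obtain ⟨s0, hs0⟩ := ι.exists_leftInverse_of_injective hinj
  obtain ⟨σ, hσ⟩ := N.mkQ.exists_rightInverse_of_surjective (LinearMap.range_eq_top.2 N.mkQ_surjective)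
  refine ⟨ι ∘ₗ N.mkQ, σ ∘ₗ s0, fun z => ?_, fun z => ?_⟩
  · rw [LinearMap.comp_apply]
    constructor
    · intro hz
      have : N.mkQ z = 0 := (Submodule.Quotient.mk_eq_zero N).2 hz
      rw [this, map_zero]
    · intro hz
      have h1 : N.mkQ z ∈ LinearMap.ker ι := hz
      rw [hinj, Submodule.mem_bot] at h1
      exact (Submodule.Quotient.mk_eq_zero N).1 h1
  · simp only [LinearMap.comp_apply]
    have h1 : ∀ q, s0 (ι q) = q := fun q => LinearMap.congr_fun hs0 q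
    have h2 : ∀ q, N.mkQ (σ q) = q := fun q => LinearMap.congr_fun hσ q
    rw [h1, h2]

lemma lift_eq {L F : Type} [LieRing L] [LieAlgebra ℚ L] [Field F] [Algebra ℚ F]
    (f : (F ⊗[ℚ] L) →ₗ[F] F) (g : L →ₗ[ℚ] F) (h : ∀ x, g x = f ((1 : F) ⊗ₜ[ℚ] x)) (z : F ⊗[ℚ] L) :
    LinearMap.liftBaseChange F g z = f z := by
  induction z with
  | zero => simp
  | tmul b x =>
    rw [LinearMap.liftBaseChange_tmul, h]
    have : b ⊗ₜ[ℚ] x = b • ((1 : F) ⊗ₜ[ℚ] x) := by
      rw [TensorProduct.smul_tmul', smul_eq_mul, mul_one]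
    rw [this, map_smul]
  | add z z' h h' => rw [map_add, map_add, h, h']

lemma one_tmul_smul {L F : Type} [LieRing L] [LieAlgebra ℚ L] [Field F] [Algebra ℚ F]
    (q : ℚ) (y : L) : (1 : F) ⊗ₜ[ℚ] (q • y) = (algebraMap ℚ F q) • ((1 : F) ⊗ₜ[ℚ] y) := by
  rw [TensorProduct.smul_tmul', TensorProduct.tmul_smul, TensorProduct.smul_tmul',
    Algebra.smul_def, smul_eq_mul]

theorem dat : S_dat := by
  classical
  intro L F _ _ _ _ _ c
  constructor
  · intro I hI
    obtain ⟨Φ, s, hΦ, hs⟩ := exists_ker (V := F ⊗[ℚ] L) I.toSubmodule c hI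
    have hIΦ : ∀ z, z ∈ I ↔ Φ z = 0 := fun z => hΦ z
    obtain ⟨ℓ, hℓ⟩ : ∃ ℓ : Fin c → (L →ₗ[ℚ] F), ∀ i x, ℓ i x = Φ ((1 : F) ⊗ₜ[ℚ] x) i := by
      refine ⟨fun i => ⟨⟨fun x => Φ ((1 : F) ⊗ₜ[ℚ] x) i, ?_⟩, ?_⟩, fun i x => rfl⟩
      · intro x y
        rw [TensorProduct.tmul_add, map_add]
        rfl
      · intro q x
        simp only [RingHom.id_apply]
        rw [one_tmul_smul, map_smul, Pi.smul_apply, smul_eq_mul, Algebra.smul_def]
    obtain ⟨a, ha⟩ : ∃ a : Fin c → Fin c → (L →ₗ[ℚ] F), ∀ i j y,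
        a i j y = Φ ⁅s (Pi.single j 1), (1 : F) ⊗ₜ[ℚ] y⁆ i := by
      refine ⟨fun i j => ⟨⟨fun y => Φ ⁅s (Pi.single j 1), (1 : F) ⊗ₜ[ℚ] y⁆ i, ?_⟩, ?_⟩,
        fun i j y => rfl⟩
      · intro x y
        rw [TensorProduct.tmul_add, lie_add, map_add]
        rfl
      · intro q x
        simp only [RingHom.id_apply]
        rw [one_tmul_smul, lie_smul, map_smul, Pi.smul_apply, smul_eq_mul, Algebra.smul_def]
    have hlift : ∀ i z, LinearMap.liftBaseChange F (ℓ i) z = Φ z i := by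
      intro i z
      exact lift_eq (LinearMap.proj i ∘ₗ Φ) (ℓ i) (hℓ i) z
    refine ⟨ℓ, a, ?_, ?_⟩
    · intro i x y
      have h1 : ∑ j, a i j y * ℓ j x = Φ ⁅s (Φ ((1 : F) ⊗ₜ[ℚ] x)), (1 : F) ⊗ₜ[ℚ] y⁆ i := by
        obtain ⟨w, hw⟩ : ∃ w, w = Φ ((1 : F) ⊗ₜ[ℚ] x) := ⟨_, rfl⟩
        have h2 : w = ∑ j, w j • (Pi.single j (1 : F) : Fin c → F) := by
          funext k
          rw [Finset.sum_apply]
          simp [Pi.single_apply]
        obtain ⟨T, hT⟩ : ∃ T : (Fin c → F) →ₗ[F] F, ∀ w, T w = Φ ⁅s w, (1 : F) ⊗ₜ[ℚ] y⁆ i := by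
          refine ⟨⟨⟨fun w => Φ ⁅s w, (1 : F) ⊗ₜ[ℚ] y⁆ i, ?_⟩, ?_⟩, fun w => rfl⟩
          · intro w w'
            rw [map_add, add_lie, map_add]
            rfl
          · intro b w
            simp only [RingHom.id_apply]
            rw [map_smul, smul_lie, map_smul]
            rfl
        rw [← hT, ← hw]
        conv_rhs => rw [h2]
        rw [map_sum]
        refine Finset.sum_congr rfl fun j _ => ?_
        rw [map_smul, hT, ha, hℓ, hw, smul_eq_mul, mul_comm]
      rw [h1, hℓ]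
      have h3 : s (Φ ((1 : F) ⊗ₜ[ℚ] x)) - (1 : F) ⊗ₜ[ℚ] x ∈ I := by
        rw [hIΦ, map_sub, hs, sub_self]
      have h4 : ⁅s (Φ ((1 : F) ⊗ₜ[ℚ] x)) - (1 : F) ⊗ₜ[ℚ] x, (1 : F) ⊗ₜ[ℚ] y⁆ ∈ I := by
        rw [← lie_skew]
        exact neg_mem (I.lie_mem h3)
      rw [hIΦ, sub_lie, map_sub, sub_eq_zero] at h4
      rw [h4, LieAlgebra.ExtendScalars.bracket_tmul, mul_one]
    · intro z
      rw [hIΦ]
      simp only [hlift]
      constructor
      · intro h i; rw [h]; rfl
      · intro h; funext i; exact h i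
  · intro ℓ a hla
    have h1 : ∀ i (v : F ⊗[ℚ] L) (y : L), LinearMap.liftBaseChange F (ℓ i) ⁅v, (1 : F) ⊗ₜ[ℚ] y⁆ =
        ∑ j, a i j y * LinearMap.liftBaseChange F (ℓ j) v := by
      intro i v y
      induction v with
      | zero => simp
      | tmul b x =>
        rw [LieAlgebra.ExtendScalars.bracket_tmul, mul_one, LinearMap.liftBaseChange_tmul, hla i x y,
          smul_eq_mul, Finset.mul_sum]
        refine Finset.sum_congr rfl fun j _ => ?_
        rw [LinearMap.liftBaseChange_tmul, smul_eq_mul]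
        ring
      | add v v' h h' =>
        rw [add_lie, map_add, h, h', ← Finset.sum_add_distrib]
        refine Finset.sum_congr rfl fun j _ => ?_
        rw [map_add, mul_add]
    obtain ⟨Φ, hΦ⟩ : ∃ Φ : (F ⊗[ℚ] L) →ₗ[F] (Fin c → F), ∀ z i,
        Φ z i = LinearMap.liftBaseChange F (ℓ i) z :=
      ⟨LinearMap.pi fun i => LinearMap.liftBaseChange F (ℓ i), fun z i => rfl⟩
    have h2 : ∀ (w v : F ⊗[ℚ] L), (∀ i, LinearMap.liftBaseChange F (ℓ i) v = 0) →
        ∀ i, LinearMap.liftBaseChange F (ℓ i) ⁅w, v⁆ = 0 := by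
      intro w v hv
      have h3 : ∀ i, LinearMap.liftBaseChange F (ℓ i) ⁅v, w⁆ = 0 := by
        intro i
        induction w with
        | zero => simp
        | tmul b y =>
          have : b ⊗ₜ[ℚ] y = b • ((1 : F) ⊗ₜ[ℚ] y) := by
            rw [TensorProduct.smul_tmul', smul_eq_mul, mul_one]
          rw [this, lie_smul, map_smul, h1]
          simp [hv]
        | add w w' h h' => rw [lie_add, map_add, h, h', add_zero]
      intro i
      rw [← lie_skew, map_neg, h3, neg_zero]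
    have hmem : ∀ z, z ∈ LinearMap.ker Φ ↔ ∀ i, LinearMap.liftBaseChange F (ℓ i) z = 0 := by
      intro z
      rw [LinearMap.mem_ker]
      constructor
      · intro h i
        rw [← hΦ, h]
        rfl
      · intro h
        funext i
        rw [hΦ, h i]
        rfl
    refine ⟨{ LinearMap.ker Φ with
      lie_mem := fun {w v} hv => ?_ }, ?_, fun z => hmem z⟩
    · exact (hmem _).2 (h2 w v ((hmem v).1 hv))
    · have h4 := LinearMap.finrank_range_add_finrank_ker Φ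
      have h5 : Module.finrank F (LinearMap.range Φ) ≤ c := by
        refine (Submodule.finrank_le _).trans ?_
        simp
      have h6 : Module.finrank F (LinearMap.ker Φ) = Module.finrank F
        ({ LinearMap.ker Φ with
      lie_mem := fun {w v} hv => (hmem _).2 (h2 w v ((hmem v).1 hv)) } : LieIdeal F (F ⊗[ℚ] L)) := rfl
      omega

end Pool.Agent.W959.RG
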