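import Pool.Agent.W348.RG.Stms

/-!
Project RG: ideals of small codimension, functionals and descent (S_nf, S_desc).
-/

set_option autoImplicit false

open Finset TensorProduct

namespace Pool.Agent.W959.RG

open Pool.Agent.W348.RG

/-! ### Finite intersections -/

/-- an intersection of submodules of an Artinian module is a finite intersection -/
lemma finite_inf {F V : Type} [Field F] [AddCommGroup V] [Module F V] [Module.Finite F V]
    (S : Set (Submodule F V)) (hS : sInf S = ⊥) :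
    ∃ (r : ℕ) (I : Fin r → Submodule F V), (∀ s, I s ∈ S) ∧ ⨅ s, I s = ⊥ := by
  have h := CompleteLattice.WellFoundedGT.isSupFiniteCompact (Submodule F V)ᵒᵈ
  obtain ⟨t, ht, hts⟩ := h (OrderDual.ofDual ⁻¹' S)
  have h1 : sInf S = ⨅ x : t, OrderDual.ofDual (x : (Submodule F V)ᵒᵈ) := by
    have h2 : OrderDual.ofDual (sSup (OrderDual.ofDual ⁻¹' S)) = sInf S := rfl
    rw [← h2, hts]
    apply le_antisymm
    · refine le_iInf fun x => ?_
      exact Finset.le_sup (f := id) x.2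
    · have : t.sup id ≤ OrderDual.toDual (⨅ x : t, OrderDual.ofDual (x : (Submodule F V)ᵒᵈ)) := by
        refine Finset.sup_le fun x hx => ?_
        exact iInf_le (fun x : t => OrderDual.ofDual (x : (Submodule F V)ᵒᵈ)) ⟨x, hx⟩
      exact this
  obtain ⟨r, ⟨e⟩⟩ : ∃ r, Nonempty (t ≃ Fin r) := ⟨_, ⟨Fintype.equivFin t⟩⟩
  refine ⟨r, fun s => OrderDual.ofDual ((e.symm s : t) : (Submodule F V)ᵒᵈ), fun s => ?_, ?_⟩
  · exact ht (e.symm s).2
  · rw [← hS, h1]
    exact e.symm.iInf_comp (g := fun x : t => OrderDual.ofDual (x : (Submodule F V)ᵒᵈ))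

lemma finite_Jc {F V : Type} [Field F] [LieRing V] [LieAlgebra F V] [Module.Finite F V] (c : ℕ)
    (h : Jc F V c = ⊥) : ∃ (r : ℕ) (I : Fin r → LieIdeal F V),
      (∀ s, Module.finrank F V ≤ Module.finrank F (I s) + c) ∧
      ∀ z, (∀ s, z ∈ I s) → z = 0 := by
  obtain ⟨r, I, hI, hinf⟩ := finite_inf
    {W : Submodule F V | ∃ I : LieIdeal F V, Module.finrank F V ≤ Module.finrank F I + c ∧
      W = I.toSubmodule} (by
      rw [← h, Jc]
      apply le_antisymm
      · refine le_iInf₂ fun I hI => sInf_le ⟨I, hI, rfl⟩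
      · refine le_sInf ?_
        rintro W ⟨I, hI, rfl⟩
        exact iInf₂_le I hI)
  choose I' hI' hII' using hI
  refine ⟨r, I', hI', fun z hz => ?_⟩
  have : z ∈ ⨅ s, I s := by
    rw [Submodule.mem_iInf]
    intro s
    rw [hII' s]
    exact hz s
  rw [hinf] at this
  exact (Submodule.mem_bot F).1 this

lemma mem_Jc {F V : Type} [Field F] [LieRing V] [LieAlgebra F V] (c : ℕ) (z : V) :
    z ∈ Jc F V c ↔ ∀ I : LieIdeal F V, Module.finrank F V ≤ Module.finrank F I + c → z ∈ I := by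
  rw [Jc]
  simp only [Submodule.mem_iInf]
  rfl

/-! ### Polynomial systems over a finite type of unknowns -/

lemma nss' (hn : S_nss) (σ : Type) [Finite σ] (P : Set (MvPolynomial σ ℚ)) (F : Type) [Field F]
    [Algebra ℚ F] (x : σ → F) (hx : ∀ f ∈ P, MvPolynomial.aeval x f = 0) :
    ∃ y : σ → AlgebraicClosure ℚ, ∀ f ∈ P, MvPolynomial.aeval y f = 0 := by
  obtain ⟨n, ⟨e⟩⟩ := Finite.exists_equiv_fin σ
  obtain ⟨y, hy⟩ := hn n ((fun f => MvPolynomial.rename e f) '' P) F (x ∘ e.symm) (by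
    rintro _ ⟨f, hf, rfl⟩
    rw [MvPolynomial.aeval_rename]
    have e1 : (x ∘ e.symm) ∘ e = x := by funext i; simp
    rw [e1]
    exact hx f hf)
  refine ⟨y ∘ e, fun f hf => ?_⟩
  have := hy _ ⟨f, hf, rfl⟩
  rwa [MvPolynomial.aeval_rename] at this

section
variable {L : Type} [LieRing L] [LieAlgebra ℚ L] {c d : ℕ}

/-- data are determined on a basis -/
lemma isData_iff {F : Type} [Field F] [Algebra ℚ F] (e : Module.Basis (Fin d) ℚ L)
    (ℓ : Fin c → (L →ₗ[ℚ] F)) (a : Fin c → Fin c → (L →ₗ[ℚ] F)) :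
    IsData ℓ a ↔ ∀ i k l, ∑ m, (e.repr ⁅e k, e l⁆ m) • ℓ i (e m) =
      ∑ j, a i j (e l) * ℓ j (e k) := by
  have h0 : ∀ i k l, ℓ i ⁅e k, e l⁆ = ∑ m, (e.repr ⁅e k, e l⁆ m) • ℓ i (e m) := by
    intro i k l
    conv_lhs => rw [← e.sum_repr ⁅e k, e l⁆]
    rw [map_sum]
    exact Finset.sum_congr rfl fun m _ => map_smul _ _ _
  constructor
  · intro h i k l
    rw [← h0, h i]
  · intro h i x y
    obtain ⟨B1, hB1⟩ : ∃ B1 : L →ₗ[ℚ] L →ₗ[ℚ] F, ∀ x y, B1 x y = ℓ i ⁅x, y⁆ :=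
      ⟨LinearMap.mk₂ ℚ (fun x y => ℓ i ⁅x, y⁆) (by intro x x' y; rw [add_lie, map_add])
        (by intro q x y; rw [smul_lie, map_smul]) (by intro x y y'; rw [lie_add, map_add])
        (by intro q x y; rw [lie_smul, map_smul]), fun x y => rfl⟩
    obtain ⟨B2, hB2⟩ : ∃ B2 : L →ₗ[ℚ] L →ₗ[ℚ] F, ∀ x y, B2 x y = ∑ j, a i j y * ℓ j x :=
      ⟨LinearMap.mk₂ ℚ (fun x y => ∑ j, a i j y * ℓ j x)
        (by intro x x' y; simp only [map_add, mul_add, Finset.sum_add_distrib])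
        (by
          intro q x y
          simp only [map_smul, Algebra.smul_def, Finset.mul_sum]
          exact Finset.sum_congr rfl fun _ _ => by ring)
        (by intro x y y'; simp only [map_add, add_mul, Finset.sum_add_distrib])
        (by
          intro q x y
          simp only [map_smul, Algebra.smul_def, Finset.mul_sum]
          exact Finset.sum_congr rfl fun _ _ => by ring), fun x y => rfl⟩
    have hB : B1 = B2 := by
      apply LinearMap.ext_basis e e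
      intro k l
      rw [hB1, hB2, h0, h]
    rw [← hB1, ← hB2, hB]

/-- the values on a basis -/
noncomputable def val {F : Type} [Field F] [Algebra ℚ F] (e : Module.Basis (Fin d) ℚ L) {r : ℕ} {ρ : Type}
    (ℓ : Fin r → Fin c → (L →ₗ[ℚ] F)) (a : Fin r → Fin c → Fin c → (L →ₗ[ℚ] F)) (z : ρ → F) :
    ((Fin r × Fin c × Fin d) ⊕ (Fin r × Fin c × Fin c × Fin d)) ⊕ ρ → F :=
  Sum.elim (Sum.elim (fun p => ℓ p.1 p.2.1 (e p.2.2)) (fun p => a p.1 p.2.1 p.2.2.1 (e p.2.2.2))) z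

lemma transfer (hn : S_nss) (e : Module.Basis (Fin d) ℚ L) {r : ℕ} {ρ : Type} [Finite ρ]
    (Q : Set (MvPolynomial
      (((Fin r × Fin c × Fin d) ⊕ (Fin r × Fin c × Fin c × Fin d)) ⊕ ρ) ℚ))
    {F : Type} [Field F] [Algebra ℚ F]
    (ℓ : Fin r → Fin c → (L →ₗ[ℚ] F)) (a : Fin r → Fin c → Fin c → (L →ₗ[ℚ] F)) (z : ρ → F)
    (hd : ∀ s, IsData (ℓ s) (a s)) (hQ : ∀ q ∈ Q, MvPolynomial.aeval (val e ℓ a z) q = 0) :
    ∃ (ℓ' : Fin r → Fin c → (L →ₗ[ℚ] AlgebraicClosure ℚ))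
      (a' : Fin r → Fin c → Fin c → (L →ₗ[ℚ] AlgebraicClosure ℚ)) (z' : ρ → AlgebraicClosure ℚ),
      (∀ s, IsData (ℓ' s) (a' s)) ∧ ∀ q ∈ Q, MvPolynomial.aeval (val e ℓ' a' z') q = 0 := by
  classical
  obtain ⟨E, hE⟩ : ∃ E : Fin r → Fin c → Fin d → Fin d → MvPolynomial
      (((Fin r × Fin c × Fin d) ⊕ (Fin r × Fin c × Fin c × Fin d)) ⊕ ρ) ℚ, E = fun s i k l =>
      (∑ m, MvPolynomial.C (e.repr ⁅e k, e l⁆ m) * MvPolynomial.X (Sum.inl (Sum.inl (s, i, m)))) -
        ∑ j, MvPolynomial.X (Sum.inl (Sum.inr (s, i, j, l))) *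
          MvPolynomial.X (Sum.inl (Sum.inl (s, j, k))) := ⟨_, rfl⟩
  obtain ⟨y, hy⟩ := nss' hn _ (Q ∪ {q | ∃ s i k l, q = E s i k l}) F (val e ℓ a z) (by
    rintro q (hq | ⟨s, i, k, l, rfl⟩)
    · exact hQ q hq
    · rw [hE]
      simp only [map_sub, map_sum, map_mul, MvPolynomial.aeval_X, MvPolynomial.aeval_C, val,
        Sum.elim_inl, Sum.elim_inr]
      rw [sub_eq_zero]
      have h := (isData_iff e (ℓ s) (a s)).1 (hd s) i k l
      simp only [Algebra.smul_def] at h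
      exact h)
  obtain ⟨ℓ', hℓ'⟩ : ∃ ℓ' : Fin r → Fin c → (L →ₗ[ℚ] AlgebraicClosure ℚ), ∀ s i k,
      ℓ' s i (e k) = y (Sum.inl (Sum.inl (s, i, k))) :=
    ⟨fun s i => e.constr ℚ fun k => y (Sum.inl (Sum.inl (s, i, k))), fun s i k => by simp⟩
  obtain ⟨a', ha'⟩ : ∃ a' : Fin r → Fin c → Fin c → (L →ₗ[ℚ] AlgebraicClosure ℚ), ∀ s i j k,
      a' s i j (e k) = y (Sum.inl (Sum.inr (s, i, j, k))) :=
    ⟨fun s i j => e.constr ℚ fun k => y (Sum.inl (Sum.inr (s, i, j, k))), fun s i j k => by simp⟩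
  have hval : val e ℓ' a' (fun t => y (Sum.inr t)) = y := by
    funext p
    rcases p with ((⟨s, i, k⟩ | ⟨s, i, j, k⟩) | t)
    · exact hℓ' s i k
    · exact ha' s i j k
    · rfl
  refine ⟨ℓ', a', fun t => y (Sum.inr t), fun s => ?_, fun q hq => ?_⟩
  · rw [isData_iff e]
    intro i k l
    have h := hy (E s i k l) (Or.inr ⟨s, i, k, l, rfl⟩)
    rw [hE] at h
    simp only [map_sub, map_sum, map_mul, MvPolynomial.aeval_X, MvPolynomial.aeval_C] at h
    rw [sub_eq_zero] at h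
    simp only [Algebra.smul_def, hℓ', ha']
    exact h
  · rw [hval]
    exact hy q (Or.inl hq)

/-! ### Certificates -/

/-- a certificate for the vanishing of the intersection of the ideals -/
def Cert (e : Module.Basis (Fin d) ℚ L) (c : ℕ) (F : Type) [Field F] [Algebra ℚ F] (r : ℕ) :
    Prop :=
  ∃ (ℓ : Fin r → Fin c → (L →ₗ[ℚ] F)) (a : Fin r → Fin c → Fin c → (L →ₗ[ℚ] F))
    (b : Fin d × Fin r × Fin c → F), (∀ s, IsData (ℓ s) (a s)) ∧
    ∀ k l, ∑ s, ∑ i, b (k, s, i) * ℓ s i (e l) = if k = l then 1 else 0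

lemma cert_of_Jc [Module.Finite ℚ L] (hd : S_dat) (e : Module.Basis (Fin d) ℚ L) (F : Type)
    [Field F] [Algebra ℚ F] (h : Jc F (F ⊗[ℚ] L) c = ⊥) : ∃ r, Cert e c F r := by
  classical
  obtain ⟨r, I, hI, hI0⟩ := finite_Jc c h
  choose ℓ a hla hz using fun s => (hd L F c).1 (I s) (hI s)
  obtain ⟨Φ, hΦ⟩ : ∃ Φ : (F ⊗[ℚ] L) →ₗ[F] (Fin r × Fin c → F), ∀ z p,
      Φ z p = LinearMap.liftBaseChange F (ℓ p.1 p.2) z :=
    ⟨LinearMap.pi fun p => LinearMap.liftBaseChange F (ℓ p.1 p.2), fun z p => rfl⟩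
  have hker : LinearMap.ker Φ = ⊥ := by
    rw [LinearMap.ker_eq_bot']
    intro z hz0
    apply hI0
    intro s
    rw [hz s]
    intro i
    rw [← hΦ z (s, i), hz0]
    rfl
  obtain ⟨Ψ, hΨ⟩ := Φ.exists_leftInverse_of_injective hker
  refine ⟨r, ℓ, a, fun p => (e.baseChange F).coord p.1 (Ψ (Pi.single (p.2.1, p.2.2) 1)), hla, ?_⟩
  intro k l
  have h1 : Ψ (Φ ((1 : F) ⊗ₜ[ℚ] e l)) = (1 : F) ⊗ₜ[ℚ] e l := by
    have := LinearMap.congr_fun hΨ ((1 : F) ⊗ₜ[ℚ] e l)
    simpa using this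
  have h2 : Φ ((1 : F) ⊗ₜ[ℚ] e l) = ∑ s, ∑ i, ℓ s i (e l) • Pi.single (s, i) (1 : F) := by
    funext p
    obtain ⟨s, i⟩ := p
    rw [hΦ, LinearMap.liftBaseChange_tmul, one_smul, Finset.sum_apply,
      Finset.sum_eq_single s, Finset.sum_apply, Finset.sum_eq_single i]
    · simp
    · intro q _ hq
      simp [hq.symm]
    · intro hp
      exact absurd (Finset.mem_univ i) hp
    · intro q _ hq
      rw [Finset.sum_apply]
      refine Finset.sum_eq_zero fun j _ => ?_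
      simp [hq.symm]
    · intro hp
      exact absurd (Finset.mem_univ s) hp
  have h3 : (e.baseChange F).coord k (Ψ (Φ ((1 : F) ⊗ₜ[ℚ] e l))) = if k = l then 1 else 0 := by
    rw [h1, ← Module.Basis.baseChange_apply, Module.Basis.coord_apply, Module.Basis.repr_self,
      Finsupp.single_apply]
    by_cases hkl : k = l
    · simp [hkl]
    · simp [hkl, Ne.symm hkl]
  rw [← h3, h2]
  simp only [map_sum, map_smul, smul_eq_mul]
  refine Finset.sum_congr rfl fun s _ => Finset.sum_congr rfl fun i _ => ?_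
  rw [mul_comm]

lemma Jc_of_cert [Module.Finite ℚ L] (hd : S_dat) (e : Module.Basis (Fin d) ℚ L) (F : Type)
    [Field F] [Algebra ℚ F] {r : ℕ} (h : Cert e c F r) : Jc F (F ⊗[ℚ] L) c = ⊥ := by
  classical
  obtain ⟨ℓ, a, b, hla, hb⟩ := h
  rw [eq_bot_iff]
  intro z hz
  rw [mem_Jc] at hz
  have h1 : ∀ s i, LinearMap.liftBaseChange F (ℓ s i) z = 0 := by
    intro s
    obtain ⟨I, hI, hIz⟩ := (hd L F c).2 (ℓ s) (a s) (hla s)
    exact (hIz z).1 (hz I hI)
  have h2 : ∀ s i, ∑ l, (e.baseChange F).repr z l * ℓ s i (e l) = 0 := by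
    intro s i
    rw [← h1 s i]
    conv_rhs => rw [← (e.baseChange F).sum_repr z]
    rw [map_sum]
    refine Finset.sum_congr rfl fun l _ => ?_
    rw [map_smul, Module.Basis.baseChange_apply, LinearMap.liftBaseChange_tmul, one_smul,
      smul_eq_mul]
  have h3 : (e.baseChange F).repr z = 0 := by
    ext k
    have h4 : (e.baseChange F).repr z k = ∑ l, (e.baseChange F).repr z l *
        (∑ s, ∑ i, b (k, s, i) * ℓ s i (e l)) := by
      simp only [hb]
      simp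
    rw [h4]
    have h5 : ∑ l, (e.baseChange F).repr z l * (∑ s, ∑ i, b (k, s, i) * ℓ s i (e l)) =
        ∑ s, ∑ i, b (k, s, i) * ∑ l, (e.baseChange F).repr z l * ℓ s i (e l) := by
      simp only [Finset.mul_sum]
      rw [Finset.sum_comm]
      refine Finset.sum_congr rfl fun s _ => ?_
      rw [Finset.sum_comm]
      refine Finset.sum_congr rfl fun i _ => Finset.sum_congr rfl fun l _ => ?_
      ring
    rw [h5]
    simp [h2]
  have h6 : z = 0 := by
    have := congrArg (e.baseChange F).repr.symm h3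
    simpa using this
  rw [h6]
  exact Submodule.zero_mem _

lemma IsData.map {F F' : Type} [Field F] [Algebra ℚ F] [Field F'] [Algebra ℚ F'] (j : F →ₐ[ℚ] F')
    {ℓ : Fin c → (L →ₗ[ℚ] F)} {a : Fin c → Fin c → (L →ₗ[ℚ] F)} (h : IsData ℓ a) :
    IsData (fun i => j.toLinearMap ∘ₗ ℓ i) (fun i k => j.toLinearMap ∘ₗ a i k) := by
  intro i x y
  simp only [LinearMap.comp_apply, AlgHom.toLinearMap_apply]
  rw [h i x y, map_sum]
  simp only [map_mul]

lemma Cert.map {F F' : Type} [Field F] [Algebra ℚ F] [Field F'] [Algebra ℚ F'] (j : F →ₐ[ℚ] F')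
    {e : Module.Basis (Fin d) ℚ L} {r : ℕ} (h : Cert e c F r) : Cert e c F' r := by
  obtain ⟨ℓ, a, b, hla, hb⟩ := h
  refine ⟨fun s i => j.toLinearMap ∘ₗ ℓ s i, fun s i k => j.toLinearMap ∘ₗ a s i k,
    fun p => j (b p), fun s => IsData.map j (hla s), ?_⟩
  intro k l
  have h1 := congrArg j (hb k l)
  simp only [map_sum, map_mul] at h1
  simp only [LinearMap.comp_apply, AlgHom.toLinearMap_apply]
  rw [h1]
  split_ifs <;> simp

lemma Cert.transfer (hn : S_nss) {F : Type} [Field F] [Algebra ℚ F]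
    {e : Module.Basis (Fin d) ℚ L} {r : ℕ} (h : Cert e c F r) :
    Cert e c (AlgebraicClosure ℚ) r := by
  classical
  obtain ⟨ℓ, a, b, hla, hb⟩ := h
  obtain ⟨ℓ', a', b', hla', hb'⟩ := RG.transfer hn e
    {q | ∃ k l, q = (∑ s, ∑ i, MvPolynomial.X (Sum.inr (k, s, i)) *
      MvPolynomial.X (Sum.inl (Sum.inl (s, i, l)))) - MvPolynomial.C (if k = l then 1 else 0)}
    ℓ a b hla (by
      rintro q ⟨k, l, rfl⟩
      simp only [map_sub, map_sum, map_mul, MvPolynomial.aeval_X, MvPolynomial.aeval_C, val,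
        Sum.elim_inl, Sum.elim_inr]
      rw [hb, sub_eq_zero]
      split_ifs <;> simp)
  refine ⟨ℓ', a', b', hla', fun k l => ?_⟩
  have h1 := hb' _ ⟨k, l, rfl⟩
  simp only [map_sub, map_sum, map_mul, MvPolynomial.aeval_X, MvPolynomial.aeval_C, val,
    Sum.elim_inl, Sum.elim_inr] at h1
  rw [sub_eq_zero] at h1
  rw [h1]
  split_ifs <;> simp

/-! ### Number fields -/

lemma numberField_adjoin (S : Set (AlgebraicClosure ℚ)) (hS : S.Finite) :
    NumberField (IntermediateField.adjoin ℚ S) := by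
  have : Finite S := hS
  have h1 : FiniteDimensional ℚ (IntermediateField.adjoin ℚ S) :=
    IntermediateField.finiteDimensional_adjoin fun x _ =>
      (AlgebraicClosure.isAlgebraic ℚ).isIntegral.isIntegral x
  exact { to_charZero := inferInstance, to_finiteDimensional := by convert h1 }

/-- restriction of linear maps to a subfield containing the values on a basis -/
lemma exists_restrict {K E : Type} [Field K] [Field E] [Algebra ℚ K] [Algebra ℚ E]
    (j : K →+* E) (e : Module.Basis (Fin d) ℚ L) (f : L →ₗ[ℚ] E)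
    (h : ∀ k, f (e k) ∈ j.range) : ∃ g : L →ₗ[ℚ] K, ∀ x, j (g x) = f x := by
  choose v hv using h
  refine ⟨e.constr ℚ v, fun x => ?_⟩
  have h1 : ((j : K →+ E).toRatLinearMap) ∘ₗ (e.constr ℚ v) = f := by
    apply e.ext
    intro k
    simp [hv]
  rw [← h1]
  rfl

lemma isData_restrict {K E : Type} [Field K] [Field E] [Algebra ℚ K] [Algebra ℚ E]
    (j : K →+* E) {ℓ : Fin c → (L →ₗ[ℚ] E)} {a : Fin c → Fin c → (L →ₗ[ℚ] E)}
    (h : IsData ℓ a) {ℓ' : Fin c → (L →ₗ[ℚ] K)} {a' : Fin c → Fin c → (L →ₗ[ℚ] K)}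
    (h1 : ∀ i x, j (ℓ' i x) = ℓ i x) (h2 : ∀ i k x, j (a' i k x) = a i k x) : IsData ℓ' a' := by
  intro i x y
  apply j.injective
  rw [h1, h i x y, map_sum]
  simp only [map_mul, h1, h2]

end

theorem nf (hn : S_nss) (hd : S_dat) : S_nf := by
  intro L _ _ _ c hJ
  obtain ⟨e⟩ : Nonempty (Module.Basis (Fin (Module.finrank ℚ L)) ℚ L) := ⟨Module.finBasis ℚ L⟩
  obtain ⟨r, hcert⟩ := cert_of_Jc hd e ℂ hJ
  obtain ⟨ℓ, a, b, hla, hb⟩ := hcert.transfer hn
  obtain ⟨S, hS⟩ : ∃ S : Set (AlgebraicClosure ℚ), S = Set.range (val e ℓ a b) := ⟨_, rfl⟩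
  have hfin : S.Finite := by rw [hS]; exact Set.finite_range _
  have hNF := numberField_adjoin S hfin
  obtain ⟨j, hj⟩ : ∃ j : IntermediateField.adjoin ℚ S →+* AlgebraicClosure ℚ,
      ∀ x, x ∈ S → x ∈ j.range :=
    ⟨(IntermediateField.adjoin ℚ S).val.toRingHom, fun x hx =>
      ⟨⟨x, IntermediateField.subset_adjoin ℚ S hx⟩, rfl⟩⟩
  have h1 : ∀ s i, ∃ g : L →ₗ[ℚ] (IntermediateField.adjoin ℚ S), ∀ x, j (g x) = ℓ s i x := by
    intro s i
    refine exists_restrict j e (ℓ s i) fun k => hj _ ?_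
    rw [hS]
    exact ⟨Sum.inl (Sum.inl (s, i, k)), rfl⟩
  have h2 : ∀ s i i', ∃ g : L →ₗ[ℚ] (IntermediateField.adjoin ℚ S),
      ∀ x, j (g x) = a s i i' x := by
    intro s i i'
    refine exists_restrict j e (a s i i') fun k => hj _ ?_
    rw [hS]
    exact ⟨Sum.inl (Sum.inr (s, i, i', k)), rfl⟩
  choose ℓ' hℓ' using h1
  choose a' ha' using h2
  refine ⟨IntermediateField.adjoin ℚ S, inferInstance, hNF, r, ℓ', a', fun s => ?_, ?_⟩
  · exact isData_restrict j (hla s) (hℓ' s) (ha' s)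
  · intro x hx
    have h3 : ∀ s i, ℓ s i x = 0 := by
      intro s i
      rw [← hℓ', hx, map_zero]
    have h4 : ∀ k, e.repr x k = 0 := by
      intro k
      have h5 : (algebraMap ℚ (AlgebraicClosure ℚ)) (e.repr x k) = 0 := by
        have h6 : (algebraMap ℚ (AlgebraicClosure ℚ)) (e.repr x k) =
            ∑ l, (algebraMap ℚ (AlgebraicClosure ℚ)) (e.repr x l) *
              (∑ s, ∑ i, b (k, s, i) * ℓ s i (e l)) := by
          simp only [hb]
          simp
        have h7 : ∑ l, (algebraMap ℚ (AlgebraicClosure ℚ)) (e.repr x l) *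
              (∑ s, ∑ i, b (k, s, i) * ℓ s i (e l)) =
            ∑ s, ∑ i, b (k, s, i) * ℓ s i x := by
          have h8 : ∀ s i, ℓ s i x = ∑ l, (algebraMap ℚ (AlgebraicClosure ℚ)) (e.repr x l) *
              ℓ s i (e l) := by
            intro s i
            conv_lhs => rw [← e.sum_repr x]
            rw [map_sum]
            refine Finset.sum_congr rfl fun l _ => ?_
            rw [map_smul, Algebra.smul_def]
          simp only [h8, Finset.mul_sum]
          rw [Finset.sum_comm]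
          refine Finset.sum_congr rfl fun s _ => ?_
          rw [Finset.sum_comm]
          refine Finset.sum_congr rfl fun i _ => Finset.sum_congr rfl fun l _ => ?_
          ring
        rw [h6, h7]
        simp [h3]
      exact (map_eq_zero _).1 h5
    have h9 : e.repr x = 0 := by ext k; exact h4 k
    have := congrArg e.repr.symm h9
    simpa using this

theorem desc (hn : S_nss) (hd : S_dat) (hg : S_gal) : S_desc := by
  classical
  intro L _ _ _ c hJ
  obtain ⟨e⟩ : Nonempty (Module.Basis (Fin (Module.finrank ℚ L)) ℚ L) := ⟨Module.finBasis ℚ L⟩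
  obtain ⟨W, hW⟩ : ∃ W, W = Jc (AlgebraicClosure ℚ) (AlgebraicClosure ℚ ⊗[ℚ] L) c := ⟨_, rfl⟩
  have hW0 : W ≠ ⊥ := by
    intro h0
    rw [hW] at h0
    obtain ⟨r, hcert⟩ := cert_of_Jc hd e (AlgebraicClosure ℚ) h0
    have halg : Algebra.IsAlgebraic ℚ (AlgebraicClosure ℚ) := by
      have key : ∀ A B : Algebra ℚ (AlgebraicClosure ℚ), @Algebra.IsAlgebraic ℚ _ _ _ A →
          @Algebra.IsAlgebraic ℚ _ _ _ B := by
        intro A B h
        rwa [Subsingleton.elim B A]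
      exact key _ _ (AlgebraicClosure.isAlgebraic ℚ)
    exact hJ (Jc_of_cert hd e ℂ (hcert.map (IsAlgClosed.lift (M := ℂ))))
  have hstab : ∀ σ : AlgebraicClosure ℚ ≃ₐ[ℚ] AlgebraicClosure ℚ, ∀ w ∈ W,
      LinearMap.rTensor L σ.toLinearMap w ∈ W := by
    intro σ w hw
    rw [hW, mem_Jc] at hw ⊢
    intro I hI
    obtain ⟨ℓ, a, hla, hz⟩ := (hd L (AlgebraicClosure ℚ) c).1 I hI
    obtain ⟨I', hI', hz'⟩ := (hd L (AlgebraicClosure ℚ) c).2 _ _
      (IsData.map (σ.symm : AlgebraicClosure ℚ →ₐ[ℚ] AlgebraicClosure ℚ) hla)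
    have h1 := (hz' w).1 (hw I' hI')
    rw [hz]
    intro i
    have h2 : ∀ w : AlgebraicClosure ℚ ⊗[ℚ] L,
        LinearMap.liftBaseChange (AlgebraicClosure ℚ) (ℓ i)
          (LinearMap.rTensor L σ.toLinearMap w) =
        σ (LinearMap.liftBaseChange (AlgebraicClosure ℚ)
          ((σ.symm : AlgebraicClosure ℚ →ₐ[ℚ] AlgebraicClosure ℚ).toLinearMap ∘ₗ ℓ i) w) := by
      intro w
      induction w with
      | zero => simp
      | tmul b x =>
        rw [LinearMap.rTensor_tmul, LinearMap.liftBaseChange_tmul, LinearMap.liftBaseChange_tmul]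
        simp
      | add w w' h h' => rw [map_add, map_add, map_add, map_add, h, h']
    rw [h2, h1 i, map_zero]
  obtain ⟨v, hv0, hvW⟩ := hg L W hW0 hstab
  refine ⟨v, hv0, ?_⟩
  intro F _ _ I hI
  by_contra hvI
  obtain ⟨ℓ, a, hla, hz⟩ := (hd L F c).1 I hI
  rw [hz] at hvI
  push Not at hvI
  obtain ⟨i0, hi0⟩ := hvI
  rw [LinearMap.liftBaseChange_tmul, one_smul] at hi0
  have hexp : ∀ {F' : Type} [Field F'] [Algebra ℚ F'] (f : L →ₗ[ℚ] F'),
      f v = ∑ k, algebraMap ℚ F' (e.repr v k) * f (e k) := by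
    intro F' _ _ f
    conv_lhs => rw [← e.sum_repr v]
    rw [map_sum]
    refine Finset.sum_congr rfl fun l _ => ?_
    rw [map_smul, Algebra.smul_def]
  obtain ⟨ℓ', a', z', hla', hq⟩ := transfer hn e (r := 1) (ρ := Unit)
    {q | q = MvPolynomial.X (Sum.inr ()) * (∑ k, MvPolynomial.C (e.repr v k) *
      MvPolynomial.X (Sum.inl (Sum.inl (0, i0, k)))) - 1}
    (fun _ => ℓ) (fun _ => a) (fun _ => (ℓ i0 v)⁻¹) (fun _ => hla) (by
      rintro q rfl
      simp only [map_sub, map_sum, map_mul, MvPolynomial.aeval_X, MvPolynomial.aeval_C, val,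
        Sum.elim_inl, Sum.elim_inr, map_one]
      rw [← hexp (ℓ i0), inv_mul_cancel₀ hi0, sub_self])
  have h1 := hq _ rfl
  simp only [map_sub, map_sum, map_mul, MvPolynomial.aeval_X, MvPolynomial.aeval_C, val,
    Sum.elim_inl, Sum.elim_inr, map_one] at h1
  rw [← hexp (ℓ' 0 i0)] at h1
  obtain ⟨I', hI', hz'⟩ := (hd L (AlgebraicClosure ℚ) c).2 (ℓ' 0) (a' 0) (hla' 0)
  rw [hW, mem_Jc] at hvW
  have h2 := (hz' _).1 (hvW I' hI') i0
  rw [LinearMap.liftBaseChange_tmul, one_smul] at h2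
  rw [h2, mul_zero, zero_sub] at h1
  exact one_ne_zero (neg_eq_zero.1 h1)

end Pool.Agent.W959.RG
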