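import Pool.Agent.W348.RG.Stms

/-!
Project RG: an element killed by all small p-quotients (S_kill).
-/

set_option autoImplicit false

open Finset TensorProduct

namespace Pool.Agent.W959.RG

open Pool.Agent.W348.RG

attribute [local instance 100] LieRing.ofAssociativeRing

lemma lg_one (m : ℕ) : lg (1 : Mt m) = 0 := by
  unfold lg
  apply Finset.sum_eq_zero
  intro k _
  rw [sub_self]
  rcases Nat.eq_zero_or_pos k with rfl | hk
  · simp
  · rw [zero_pow hk.ne', smul_zero]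

lemma inv_mem_Rp {p n : ℕ} (hp : p.Prime) (hn : 0 < n) (hnp : n < p) : ((n : ℚ))⁻¹ ∈ Rp p := by
  change ((n : ℚ)⁻¹).den.Coprime p
  rw [Rat.inv_natCast_den_of_pos hn]
  rw [Nat.coprime_comm, hp.coprime_iff_not_dvd]
  intro h
  exact absurd (Nat.le_of_dvd hn h) (not_le.2 hnp)

theorem kill (_h0 : S_exp) (h1 : S_desc) (h2 : S_mal) (h3 : S_k1) (h4 : S_jx) : S_kill := by
  classical
  intro G _ r c hJ
  obtain ⟨v, hv0, hv⟩ := h1 (malcev r) c hJ
  obtain ⟨n, hn, g, hg⟩ := h2 G r v v.2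
  have hnq : (n : ℚ) ≠ 0 := by exact_mod_cast hn.ne'
  refine ⟨g, ?_, ?_⟩
  · rintro rfl
    rw [map_one, lg_one] at hg
    rcases smul_eq_zero.1 hg with h | h
    · exact hnq h
    · exact hv0 (Subtype.ext h)
  by_contra hcon
  push Not at hcon
  obtain ⟨T, hT⟩ : ∃ T : Set ℕ, T = {p | p.Prime ∧ Bd r.m < p ∧ ∃ j ≤ c, ∃ N : Subgroup G,
      N.Normal ∧ N.index = p ^ j ∧ g ∉ N} := ⟨_, rfl⟩
  have hTinf : T.Infinite := by
    rw [Set.infinite_iff_exists_gt]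
    intro a
    obtain ⟨p, hp, hpp, j, hj, N, hN, hNi, hgN⟩ := hcon (max (a + 1) (Bd r.m + 1))
    refine ⟨p, ?_, ?_⟩
    · rw [hT]
      exact ⟨hpp, lt_of_lt_of_le (Nat.lt_succ_self _) ((le_max_right _ _).trans hp), j, hj, N, hN,
        hNi, hgN⟩
    · exact lt_of_lt_of_le (Nat.lt_succ_self _) ((le_max_left _ _).trans hp)
  have hTp : ∀ p ∈ T, p.Prime := by
    intro p hp
    rw [hT] at hp
    exact hp.1
  have hex : ∀ p, ∃ M I : AddSubgroup (Mt r.m), p ∈ T → IsLie (Rp p) M ∧ IsIdl (Rp p) M I ∧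
      (∀ g, lg (r.ρ g) ∈ M) ∧ lg (r.ρ g) ∉ I ∧ I.relIndex M ≠ 0 ∧ I.relIndex M ≤ p ^ c ∧
      ∀ x ∈ M, ∃ n : ℕ, 0 < n ∧ ∃ g : G, (n : ℚ) • x = lg (r.ρ g) := by
    intro p
    by_cases hp : p ∈ T
    · rw [hT] at hp
      obtain ⟨hpp, hB, j, hj, N, hN, hNi, hgN⟩ := hp
      obtain ⟨M, I, k1, k2, k3, k4, k5, k6, k7⟩ := h3 G r p j hpp hB N hN hNi
      refine ⟨M, I, fun _ => ⟨k1, k2, k3, ?_, k5, ?_, k7⟩⟩
      · rw [k4]; exact hgN
      · exact k6.trans (Nat.pow_le_pow_right hpp.pos hj)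
    · exact ⟨⊥, ⊥, fun h => absurd h hp⟩
  choose M I hMI using hex
  obtain ⟨φ, hφ⟩ : ∃ φ : malcev r →+ Mt r.m, ∀ x, φ x = (x : Mt r.m) :=
    ⟨(malcev r).toSubmodule.subtype.toAddMonoidHom, fun x => rfl⟩
  have hlgm : ∀ g', lg (r.ρ g') ∈ malcev r := fun g' =>
    LieSubalgebra.subset_lieSpan ⟨g', rfl⟩
  have key : ∃ (F : Type) (_ : Field F) (_ : Algebra ℚ F) (I' : LieIdeal F (F ⊗[ℚ] malcev r)),
      Module.finrank F (F ⊗[ℚ] malcev r) ≤ Module.finrank F I' + c ∧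
        (1 : F) ⊗ₜ[ℚ] ((n : ℚ) • v) ∉ I' := by
    refine h4 (malcev r) ((n : ℚ) • v) c T hTinf hTp
      (fun p => (M p).comap φ) (fun p => (I p).comap φ) ?_ ?_ ?_ ?_ ?_ ?_ ?_ ?_
    · intro p hp q hq x hx
      rw [AddSubgroup.mem_comap, hφ] at hx ⊢
      exact (hMI p hp).1.smul q hq _ hx
    · intro p hp q hq x hx
      rw [AddSubgroup.mem_comap, hφ] at hx ⊢
      exact (hMI p hp).2.1.smul q hq _ hx
    · intro p hp
      exact AddSubgroup.comap_mono (hMI p hp).2.1.le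
    · intro p hp x hx y hy
      rw [AddSubgroup.mem_comap, hφ] at hx hy ⊢
      exact (hMI p hp).1.br _ hx _ hy
    · intro p hp x hx y hy
      rw [AddSubgroup.mem_comap, hφ] at hx hy ⊢
      exact (hMI p hp).2.1.br _ hx _ hy
    · intro p hp
      have h5 : ((I p).comap φ).relIndex ((M p).comap φ) = (I p).relIndex (M p) := by
        rw [AddSubgroup.relIndex_comap]
        congr 1
        rw [AddSubgroup.map_comap_eq, inf_eq_right]
        intro x hx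
        obtain ⟨k, hk, g', hg'⟩ := (hMI p hp).2.2.2.2.2.2 x hx
        have hkq : (k : ℚ) ≠ 0 := by exact_mod_cast hk.ne'
        have h6 : x ∈ malcev r := by
          have h7 : x = (k : ℚ)⁻¹ • ((k : ℚ) • x) := by rw [smul_smul, inv_mul_cancel₀ hkq, one_smul]
          rw [h7, hg']
          exact (malcev r).smul_mem _ (hlgm g')
        exact ⟨⟨x, h6⟩, hφ _⟩
      rw [h5]
      exact ⟨(hMI p hp).2.2.2.2.1, (hMI p hp).2.2.2.2.2.1⟩
    · intro x
      obtain ⟨k, hk, g', hg'⟩ := h2 G r x x.2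
      have hkq : (k : ℚ) ≠ 0 := by exact_mod_cast hk.ne'
      refine ⟨k + 1, fun p hp hkp => ?_⟩
      rw [AddSubgroup.mem_comap, hφ]
      have h7 : (x : Mt r.m) = (k : ℚ)⁻¹ • ((k : ℚ) • (x : Mt r.m)) := by
        rw [smul_smul, inv_mul_cancel₀ hkq, one_smul]
      rw [h7, hg']
      exact (hMI p hp).1.smul _ (inv_mem_Rp (hTp p hp) hk hkp) _ ((hMI p hp).2.2.1 g')
    · intro p hp hmem
      rw [AddSubgroup.mem_comap, hφ] at hmem
      apply (hMI p hp).2.2.2.1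
      rw [← hg]
      exact hmem
  obtain ⟨F, _, _, I', hI', hvI'⟩ := key
  apply hvI'
  have h5 := hv F I' hI'
  have h6 : (1 : F) ⊗ₜ[ℚ] ((n : ℚ) • v) = (algebraMap ℚ F n) • ((1 : F) ⊗ₜ[ℚ] v) := by
    rw [TensorProduct.smul_tmul', TensorProduct.tmul_smul, TensorProduct.smul_tmul',
      Algebra.smul_def, smul_eq_mul]
  rw [h6]
  exact I'.smul_mem _ h5

end Pool.Agent.W959.RG
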